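import Pool.Agent.Helper420.KdVWp.Final

/-!
# KdV on an interval with `L²`-conserving boundary conditions: well-posedness in `H³(0,L)`

The initial-boundary value problem `u_t + u u_x + u_xxx = 0` on `(0,L)`, `u(t,0) = u(t,L) = 0`,
`u_x(t,0) = u_x(t,L)`, is well-posed in `H^s(0,L)` for `s = 3`.

Method: with `A = -∂ₓ³` (skew-adjoint with these boundary conditions), `K = A⁻¹`, and `f = A u`,
the equation reads `K f' = f - (K f)(K f)ₓ`. It is regularised to `(K - ε) f' = f - (K f)(K f)ₓ`, a
locally Lipschitz differential equation in `L²(0,L)`; energy estimates uniform in `ε`, a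
Bona-Smith argument with the data `K (K - δ)⁻¹ f₀` and the limit `ε → 0` give existence and
continuous dependence.
-/

namespace Pool.Agent.Results.MP_a5ec3a_an.WellPosed

open Pool.Agent.Helper420.KdVWp

/-- For every `L > 0` the nonlinear problem is well-posed in `H³(0,L)`. -/
theorem result (L : ℝ) (hL : 0 < L) : WellPosedH3 L := wellPosed hL

end Pool.Agent.Results.MP_a5ec3a_an.WellPosed
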